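import Mathlib
import Pool.Agent.W844.GP.Defs

/-!
# Project GP: the deterministic chain lemma
-/

set_option autoImplicit false

open Finset MeasureTheory ProbabilityTheory Filter Topology
open scoped ENNReal

namespace Pool.Agent.W789.GP

open Pool.Agent.W844.VG (V stp nm)
open Pool.Agent.W844.GP

variable {d : ℕ}

/-! ### strict bridges -/

lemma sb_height {i : Fin d} {l : List (V d)} {x y : V d} (h : SB i l x y) : x i ≤ y i := by
  obtain ⟨_, h2, h3⟩ := h
  rcases l with _ | ⟨a, l⟩
  · simp at h2; rw [h2]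
  · have := List.mem_of_getLast? h2
    rcases List.mem_cons.mp this with h | h
    · rw [h]
    · exact (h3 y h).1.le

lemma sb_append {i : Fin d} {l₁ l₂ : List (V d)} {x y z : V d} (h₁ : SB i l₁ x y)
    (h₂ : SB i l₂ y z) : SB i (l₁ ++ l₂) x z := by
  have hxy := sb_height h₁
  have hyz := sb_height h₂
  obtain ⟨⟨c1, n1⟩, e1, b1⟩ := h₁
  obtain ⟨⟨c2, n2⟩, e2, b2⟩ := h₂
  refine ⟨⟨?_, ?_⟩, ?_, ?_⟩
  · rw [← List.cons_append, List.isChain_append]
    refine ⟨c1, ?_, ?_⟩
    · exact (List.isChain_cons.mp c2).2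
    · intro a ha b hb
      rw [e1] at ha
      simp only [Option.mem_def, Option.some.injEq] at ha
      subst ha
      exact (List.isChain_cons.mp c2).1 b hb
  · rw [← List.cons_append, List.nodup_append]
    refine ⟨n1, (List.nodup_cons.mp n2).2, ?_⟩
    intro a ha b hb hab
    subst hab
    have h3 := (b2 a hb).1
    rcases List.mem_cons.mp ha with h | h
    · rw [h] at h3; omega
    · have := (b1 a h).2; omega
  · rcases l₂ with _ | ⟨a, l₂⟩
    · simp only [List.getLast?_singleton, Option.some.injEq] at e2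
      rw [List.append_nil, e1, e2]
    · rw [← List.cons_append, List.getLast?_append]
      rw [List.getLast?_cons_cons] at e2
      rw [e2]; rfl
  · intro v hv
    rcases List.mem_append.mp hv with h | h
    · exact ⟨(b1 v h).1, (b1 v h).2.trans hyz⟩
    · exact ⟨lt_of_le_of_lt hxy (b2 v h).1, (b2 v h).2⟩

lemma pt_self (i : Fin d) (m : ℤ) : pt i m i = m := by simp [pt]

lemma pt_zero (i : Fin d) : (pt i 0 : V d) = 0 := by simp [pt]

lemma sb_nil (i : Fin d) (x : V d) : SB i [] x x := by
  refine ⟨⟨List.isChain_singleton _, List.nodup_singleton _⟩, rfl, ?_⟩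
  intro z hz; simp at hz

lemma adj_pt (i : Fin d) (m : ℤ) : adj (pt i m) (pt i (m + 1)) := by
  unfold adj
  rw [Finset.sum_eq_single i]
  · simp [pt]
  · intro j _ hj
    simp [pt, hj]
  · intro h; exact absurd (Finset.mem_univ i) h

lemma pt_inj {i : Fin d} {m n : ℤ} (h : (pt i m : V d) = pt i n) : m = n := by
  have := congrFun h i
  rwa [pt_self, pt_self] at this

lemma sb_one (i : Fin d) (m : ℤ) : SB i [pt i (m + 1)] (pt i m) (pt i (m + 1)) := by
  refine ⟨⟨?_, ?_⟩, rfl, ?_⟩
  · rw [List.isChain_cons]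
    refine ⟨?_, List.isChain_singleton _⟩
    intro y hy
    simp only [List.head?_cons, Option.mem_def, Option.some.injEq] at hy
    subst hy
    exact adj_pt i m
  · rw [List.nodup_cons]
    refine ⟨?_, List.nodup_singleton _⟩
    intro h
    rw [List.mem_singleton] at h
    have := pt_inj h
    omega
  · intro z hz
    rw [List.mem_singleton] at hz
    subst hz
    rw [pt_self, pt_self]
    exact ⟨by omega, le_rfl⟩

/-- the straight line from `a e_i` to `(a+n) e_i` -/
noncomputable def line (i : Fin d) (a : ℕ) : ℕ → List (V d)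
  | 0 => []
  | n + 1 => line i a n ++ [pt i (((a + n : ℕ) : ℤ) + 1)]

lemma line_sb (i : Fin d) (a n : ℕ) : SB i (line i a n) (pt i (a : ℤ)) (pt i ((a + n : ℕ) : ℤ)) := by
  induction n with
  | zero => exact sb_nil i _
  | succ n ih =>
    have h := sb_append ih (sb_one i ((a + n : ℕ) : ℤ))
    have e : ((a + (n + 1) : ℕ) : ℤ) = ((a + n : ℕ) : ℤ) + 1 := by push_cast; ring
    rw [e]; exact h

lemma line_len (i : Fin d) (a n : ℕ) : (line (d := d) i a n).length = n := by
  induction n with
  | zero => rfl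
  | succ n ih => simp [line, ih]

lemma line_mem (i : Fin d) (a n : ℕ) {z : V d} (hz : z ∈ line i a n) :
    ∃ m : ℕ, a < m ∧ m ≤ a + n ∧ z = pt i (m : ℤ) := by
  induction n with
  | zero => simp [line] at hz
  | succ n ih =>
    rcases List.mem_append.mp hz with h | h
    · obtain ⟨m, h1, h2, h3⟩ := ih h
      exact ⟨m, h1, by omega, h3⟩
    · rw [List.mem_singleton] at h
      refine ⟨a + n + 1, by omega, by omega, ?_⟩
      rw [h]; push_cast; rfl

/-! ### weights -/

/-- subsets of `l` outside `A` have weight at least `-lam` -/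
def PP (w : V d → ℝ) (A : Set (V d)) (l : List (V d)) (lam : ℝ) : Prop :=
  ∀ S : Finset (V d), (∀ z ∈ S, z ∈ l ∧ z ∉ A) → -lam ≤ ∑ z ∈ S, w z

lemma pp_append {w : V d → ℝ} {A : Set (V d)} {l₁ l₂ : List (V d)} {a b : ℝ}
    (h₁ : PP w A l₁ a) (h₂ : PP w A l₂ b) : PP w A (l₁ ++ l₂) (a + b) := by
  classical
  intro S hS
  have h1 := h₁ (S.filter (· ∈ l₁)) (by
    intro z hz
    rw [Finset.mem_filter] at hz
    exact ⟨hz.2, (hS z hz.1).2⟩)
  have h2 := h₂ (S.filter (fun z => ¬ z ∈ l₁)) (by
    intro z hz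
    rw [Finset.mem_filter] at hz
    refine ⟨?_, (hS z hz.1).2⟩
    exact (List.mem_append.mp (hS z hz.1).1).resolve_left hz.2)
  have h3 := Finset.sum_filter_add_sum_filter_not S (· ∈ l₁) w
  linarith

lemma wt_append (w : V d → ℝ) (l₁ l₂ : List (V d)) : wt w (l₁ ++ l₂) = wt w l₁ + wt w l₂ := by
  simp [wt]

lemma wt_le (w : V d → ℝ) (T : ℝ) (hT : ∀ x, w x ≤ T) (l : List (V d)) :
    wt w l ≤ T * l.length := by
  induction l with
  | nil => simp [wt]
  | cons a l ih =>
    have := hT a
    simp only [wt, List.map_cons, List.sum_cons, List.length_cons] at ih ⊢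
    push_cast
    linarith

/-- subsets of a self-avoiding path with weight at least `c` -/
lemma pp_good {w : V d → ℝ} {T c : ℝ} (hT0 : 0 ≤ T) (hT : ∀ x, w x ≤ T) (A : Set (V d))
    {l : List (V d)} (hl : l.Nodup) (hc : c ≤ wt w l) : PP w A l (-c + T * l.length) := by
  classical
  intro S hS
  have hsub : S ⊆ l.toFinset := by
    intro z hz
    rw [List.mem_toFinset]; exact (hS z hz).1
  have h1 : ∑ z ∈ l.toFinset, w z = wt w l := by
    rw [List.sum_toFinset _ hl]; rfl
  have h2 := Finset.sum_sdiff (f := w) hsub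
  have h3 : ∑ z ∈ l.toFinset \ S, w z ≤ T * l.length := by
    calc ∑ z ∈ l.toFinset \ S, w z ≤ ∑ z ∈ l.toFinset \ S, T := Finset.sum_le_sum fun z _ => hT z
      _ = (l.toFinset \ S).card * T := by rw [Finset.sum_const, nsmul_eq_mul]
      _ ≤ (l.length : ℝ) * T := by
          apply mul_le_mul_of_nonneg_right _ hT0
          exact_mod_cast (Finset.card_le_card Finset.sdiff_subset).trans (List.toFinset_card_le l)
      _ = _ := mul_comm _ _
  linarith

lemma pp_line {w : V d → ℝ} {K : ℝ} (hK : 0 ≤ K) (A : Set (V d)) {l : List (V d)}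
    (h : ∀ z ∈ l, z ∉ A → -K ≤ w z) : PP w A l (K * l.length) := by
  classical
  intro S hS
  have hsub : S ⊆ l.toFinset := by
    intro z hz
    rw [List.mem_toFinset]; exact (hS z hz).1
  have h1 : ∑ z ∈ S, (-K) ≤ ∑ z ∈ S, w z := Finset.sum_le_sum fun z hz => h z (hS z hz).1 (hS z hz).2
  rw [Finset.sum_const, nsmul_eq_mul] at h1
  have h2 : (S.card : ℝ) ≤ l.length := by
    exact_mod_cast (Finset.card_le_card hsub).trans (List.toFinset_card_le l)
  nlinarith

lemma pp_mono {w : V d → ℝ} {A : Set (V d)} {l : List (V d)} {a b : ℝ} (h : PP w A l a)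
    (hab : a ≤ b) : PP w A l b := fun S hS => by linarith [h S hS]

/-! ### blocks -/

/-- what is needed of the path in block `j` -/
def Blk (i : Fin d) (w : V d → ℝ) (A : Set (V d)) (L : ℕ) (C : ℝ) (t : ℕ → ℕ) (c : ℕ → ℝ)
    (ℓ : ℕ → List (V d)) (j : ℕ) : Prop :=
  SB i (ℓ j) (pt i (t j)) (pt i (t (j + 1))) ∧ (ℓ j).length ≤ L * (t (j + 1) - t j) ∧
    PP w A (ℓ j) (-c j + C * ((t (j + 1) : ℝ) - t j))

/-- concatenation of the blocks `a, ..., a + n - 1` -/
def cat (ℓ : ℕ → List (V d)) (a : ℕ) : ℕ → List (V d)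
  | 0 => []
  | n + 1 => cat ℓ a n ++ ℓ (a + n)

lemma cat_blk {i : Fin d} {w : V d → ℝ} {A : Set (V d)} {L : ℕ} {C : ℝ} {t : ℕ → ℕ} {c : ℕ → ℝ}
    {ℓ : ℕ → List (V d)} {a n : ℕ} (ht : ∀ j, a ≤ j → j < a + n → t j ≤ t (j + 1))
    (h : ∀ j, a ≤ j → j < a + n → Blk i w A L C t c ℓ j) :
    t a ≤ t (a + n) ∧
    SB i (cat ℓ a n) (pt i (t a)) (pt i (t (a + n))) ∧
    (cat ℓ a n).length ≤ L * (t (a + n) - t a) ∧
    PP w A (cat ℓ a n) (-(∑ j ∈ Ico a (a + n), c j) + C * ((t (a + n) : ℝ) - t a)) := by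
  induction n with
  | zero =>
    refine ⟨le_rfl, sb_nil i _, by simp [cat], ?_⟩
    intro S hS
    have : S = ∅ := by
      by_contra hne
      obtain ⟨z, hz⟩ := Finset.nonempty_iff_ne_empty.mpr hne
      have := (hS z hz).1
      simp [cat] at this
    subst this
    simp
  | succ n ih =>
    obtain ⟨i0, i1, i2, i3⟩ := ih (fun j h1 h2 => ht j h1 (by omega)) (fun j h1 h2 => h j h1 (by omega))
    obtain ⟨b1, b2, b3⟩ := h (a + n) (by omega) (by omega)
    have t1 := ht (a + n) (by omega) (by omega)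
    refine ⟨i0.trans t1, sb_append i1 b1, ?_, ?_⟩
    · rw [cat, List.length_append]
      have : t (a + (n + 1)) - t a = (t (a + n) - t a) + (t (a + n + 1) - t (a + n)) := by
        have : t (a + (n + 1)) = t (a + n + 1) := rfl
        omega
      rw [this, mul_add]
      omega
    · refine pp_mono (pp_append i3 b3) (le_of_eq ?_)
      have e1 : ∑ j ∈ Ico a (a + (n + 1)), c j = ∑ j ∈ Ico a (a + n), c j + c (a + n) := by
        rw [← add_assoc, Finset.sum_Ico_succ_top (by omega)]
      rw [e1]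
      have : (t (a + (n + 1)) : ℝ) = t (a + n + 1) := rfl
      rw [this]
      ring

/-- clean boundaries -/
def Clean (i : Fin d) (A : Set (V d)) (t : ℕ → ℕ) (j : ℕ) : Prop :=
  ∀ z ∈ A, z i + 2 < t j ∨ (t j : ℤ) + 2 < z i

/-- the step over a run -/
lemma run_step (hRUN : S_RUN) (hd : 2 ≤ d) {i : Fin d} {w : V d → ℝ} {A : Set (V d)} {L : ℕ}
    {C K : ℝ} {t : ℕ → ℕ} {c : ℕ → ℝ} {ℓ : ℕ → List (V d)} {a n : ℕ} (hK : 0 ≤ K)
    (hA : A.Finite) (hcl : ∀ z ∈ A, ∀ z', z' ∈ Cl K w → nm (z' - z) ≤ 2 → z' ∈ A)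
    (ht : ∀ j, a ≤ j → j < a + n → t j ≤ t (j + 1))
    (h : ∀ j, a ≤ j → j < a + n → Blk i w A L C t c ℓ j)
    (ca : Clean i A t a) (cb : Clean i A t (a + n)) (M : Finset (V d))
    (hM : ∀ z, z ∈ Nb A 2 → (t a : ℤ) < z i → z i ≤ t (a + n) → z ∈ M) :
    ∃ l' : List (V d), SB i l' (pt i (t a)) (pt i (t (a + n))) ∧
      l'.length ≤ L * (t (a + n) - t a) + M.card ∧
      ∀ l'', l'' <+: l' →
        (∑ j ∈ Ico a (a + n), c j) - C * ((t (a + n) : ℝ) - t a) - K * M.card ≤ wt w l'' := by
  obtain ⟨i0, i1, i2, i3⟩ := cat_blk ht h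
  set A' : Set (V d) := {z | z ∈ A ∧ (t a : ℤ) < z i ∧ z i < t (a + n)} with hA'
  have hAsub : A' ⊆ A := fun z hz => hz.1
  obtain ⟨l', h1, h2, h3⟩ := hRUN d i hd w K (-(∑ j ∈ Ico a (a + n), c j) +
    C * ((t (a + n) : ℝ) - t a)) A' (pt i (t a)) (pt i (t (a + n))) (cat ℓ a n) M.card hK
    (hA.subset hAsub) i1 (by
      rintro z ⟨hz1, hz2, hz3⟩
      rw [pt_self, pt_self]
      constructor
      · rcases ca z hz1 with h | h <;> omega
      · rcases cb z hz1 with h | h <;> omega) (by
      intro z hz1 hz2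
      by_contra hcon
      push Not at hcon
      obtain ⟨y, ⟨hy1, hy2, hy3⟩, hy4⟩ := hz2
      have hzA : z ∈ A := hcl y hy1 z hcon hy4
      apply hz1
      have hh : (z i - y i).natAbs ≤ 2 := by
        have : ((z - y) i).natAbs ≤ nm (z - y) := Finset.le_sup (f := fun k => ((z - y) k).natAbs) (Finset.mem_univ i)
        simpa using this.trans hy4
      refine ⟨hzA, ?_, ?_⟩
      · rcases ca y hy1 with h | h <;> omega
      · rcases cb y hy1 with h | h <;> omega) (by
      intro S hS
      apply i3 S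
      intro z hz
      refine ⟨(hS z hz).1, fun hzA => (hS z hz).2 ⟨hzA, ?_, ?_⟩⟩
      · have := (i1.2.2 z (hS z hz).1).1
        rwa [pt_self] at this
      · have := (i1.2.2 z (hS z hz).1).2
        rw [pt_self] at this
        rcases cb z hzA with h | h <;> omega) (by
      intro S hS
      apply Finset.card_le_card
      intro z hz
      obtain ⟨y, ⟨hy1, hy2, hy3⟩, hy4⟩ := hS z hz
      have hh : (z i - y i).natAbs ≤ 2 := by
        have : ((z - y) i).natAbs ≤ nm (z - y) := Finset.le_sup (f := fun k => ((z - y) k).natAbs) (Finset.mem_univ i)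
        simpa using this.trans hy4
      refine hM z ⟨y, hy1, hy4⟩ ?_ ?_
      · rcases ca y hy1 with h | h <;> omega
      · rcases cb y hy1 with h | h <;> omega)
  refine ⟨l', h1, by omega, ?_⟩
  intro l'' hl''
  have := h3 l'' hl''
  linarith


/-! ### the induction -/

lemma prefix_cases {α : Type*} {l l₁ l₂ : List α} (h : l <+: l₁ ++ l₂) :
    l <+: l₁ ∨ ∃ l', l = l₁ ++ l' ∧ l' <+: l₂ := by
  rcases le_total l.length l₁.length with hl | hl
  · exact Or.inl (List.prefix_of_prefix_length_le h (List.prefix_append _ _) hl)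
  · obtain ⟨l', rfl⟩ := List.prefix_of_prefix_length_le (List.prefix_append l₁ l₂) h hl
    exact Or.inr ⟨l', rfl, (List.prefix_append_right_inj l₁).mp h⟩

lemma tele (t : ℕ → ℕ) (a n : ℕ) :
    ∑ j ∈ Ico a (a + n), ((t (j + 1) : ℝ) - t j) = t (a + n) - t a := by
  induction n with
  | zero => simp
  | succ n ih =>
    rw [← add_assoc, Finset.sum_Ico_succ_top (by omega), ih]
    ring

open scoped Classical in
/-- affected length -/
noncomputable def lamb (t : ℕ → ℕ) (aff : Finset ℕ) (b : ℕ) : ℝ :=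
  ∑ j ∈ range b, if j ∈ aff then ((t (j + 1) : ℝ) - t j) else 0

/-- number of points of `NA` up to height `t b` -/
noncomputable def cnt (i : Fin d) (t : ℕ → ℕ) (NA : Finset (V d)) (b : ℕ) : ℕ :=
  (NA.filter fun z : V d => z i ≤ (t b : ℤ)).card

/-- the lower bound for the weight -/
noncomputable def base (i : Fin d) (T K : ℝ) (L : ℕ) (t : ℕ → ℕ) (c : ℕ → ℝ) (aff : Finset ℕ)
    (NA : Finset (V d)) (b : ℕ) : ℝ :=
  (∑ j ∈ range b, c j) - (T * L + K) * lamb t aff b - K * cnt i t NA b

lemma chain_ind (hRUN : S_RUN) (hd : 2 ≤ d) {i : Fin d} {w : V d → ℝ} {A : Set (V d)} {L h J : ℕ}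
    {T K : ℝ} {t : ℕ → ℕ} {c : ℕ → ℝ} {ℓ : ℕ → List (V d)} {bad aff : Finset ℕ}
    {NA : Finset (V d)} (hT0 : 0 ≤ T) (hK : 0 ≤ K) (hT : ∀ x, w x ≤ T)
    (hA : A.Finite) (hcl : ∀ z ∈ A, ∀ z', z' ∈ Cl K w → nm (z' - z) ≤ 2 → z' ∈ A)
    (h0 : t 0 = 0) (ht : ∀ j < J, t j + h ≤ t (j + 1) ∧ t (j + 1) ≤ t j + 2 * h)
    (hc : ∀ j, c j ≤ 0) (hB : ∀ j < J, Blk i w A L (T * L + K) t c ℓ j)
    (hG : ∀ j < J, j ∉ bad → c j ≤ wt w (ℓ j)) (haff : ∀ j < J, j ∈ bad → j ∈ aff)
    (haff1 : ∀ j < J, ¬ Clean i A t j → j ∈ aff)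
    (haff2 : ∀ j < J, ¬ Clean i A t (j + 1) → j ∈ aff)
    (hNA : ∀ z ∈ Nb A 2, z ∈ NA) (hc0 : Clean i A t 0) :
    ∀ b, b ≤ J → Clean i A t b → ∃ l, SB i l 0 (pt i (t b)) ∧
      l.length ≤ L * t b + cnt i t NA b ∧ base i T K L t c aff NA b ≤ wt w l ∧
      ∀ l', l' <+: l → base i T K L t c aff NA b - T * L * (2 * h) ≤ wt w l' := by
  classical
  have hmono : ∀ j k, j ≤ k → k ≤ J → t j ≤ t k := by
    intro j k hjk
    induction k, hjk using Nat.le_induction with
    | base => intro _; exact le_rfl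
    | succ k hk ih =>
      intro hkJ
      have := (ht k (by omega)).1
      have := ih (by omega)
      omega
  have hcnt : ∀ j k, j ≤ k → k ≤ J → cnt i t NA j ≤ cnt i t NA k := by
    intro j k hjk hkJ
    have := hmono j k hjk hkJ
    apply Finset.card_le_card
    intro z hz
    rw [Finset.mem_filter] at hz ⊢
    exact ⟨hz.1, by omega⟩
  have hlam : ∀ j k, j ≤ k → k ≤ J → lamb t aff j ≤ lamb t aff k := by
    intro j k hjk hkJ
    unfold lamb
    rw [← Finset.sum_range_add_sum_Ico _ hjk]
    have : 0 ≤ ∑ j ∈ Ico j k, (if j ∈ aff then ((t (j + 1) : ℝ) - t j) else 0) := by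
      apply Finset.sum_nonneg
      intro x hx
      rw [Finset.mem_Ico] at hx
      split_ifs
      · have := (ht x (by omega)).1
        have : (t x : ℝ) ≤ t (x + 1) := by exact_mod_cast (by omega : t x ≤ t (x + 1))
        linarith
      · exact le_rfl
    linarith
  have hTL : 0 ≤ T * L + K := by positivity
  intro b
  induction b using Nat.strong_induction_on with
  | _ b IH =>
  intro hbJ hcb
  rcases Nat.eq_zero_or_pos b with hb0 | hb0
  · subst hb0
    have hb : base i T K L t c aff NA 0 ≤ 0 := by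
      simp only [base, Finset.range_zero, Finset.sum_empty, lamb, mul_zero, sub_zero, zero_sub]
      have : 0 ≤ K * (cnt i t NA 0 : ℝ) := by positivity
      linarith
    refine ⟨[], ?_, by simp, by simpa [wt] using hb, ?_⟩
    · have : (pt i (t 0) : V d) = 0 := by rw [h0]; exact pt_zero i
      rw [this]; exact sb_nil i 0
    · intro l' hl'
      rw [List.prefix_nil.mp hl']
      have : 0 ≤ T * L * (2 * h) := by positivity
      simp only [wt, List.map_nil, List.sum_nil]
      linarith
  · -- the last clean boundary before `b`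
    obtain ⟨a, hab, hca, hmax⟩ : ∃ a, a < b ∧ Clean i A t a ∧ ∀ j, a < j → j < b → ¬ Clean i A t j := by
      refine ⟨Nat.findGreatest (fun j => Clean i A t j) (b - 1), ?_, ?_, ?_⟩
      · have := Nat.findGreatest_le (P := fun j => Clean i A t j) (b - 1)
        omega
      · exact Nat.findGreatest_spec (P := fun j => Clean i A t j) (m := 0) (Nat.zero_le _) hc0
      · intro j h1 h2
        exact Nat.findGreatest_is_greatest h1 (by omega)
    obtain ⟨l₁, s1, s2, s3, s4⟩ := IH a hab (by omega) hca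
    have hNab := hcnt a b hab.le hbJ
    have hLab := hlam a b hab.le hbJ
    have htab := hmono a b hab.le hbJ
    have hsum : ∑ j ∈ range b, c j = ∑ j ∈ range a, c j + ∑ j ∈ Ico a b, c j := by
      rw [Finset.sum_range_add_sum_Ico _ hab.le]
    have hsumneg : ∑ j ∈ Ico a b, c j ≤ 0 := Finset.sum_nonpos fun j _ => hc j
    have hNabR : (cnt i t NA a : ℝ) ≤ cnt i t NA b := by exact_mod_cast hNab
    have hbase : base i T K L t c aff NA b ≤ base i T K L t c aff NA a + ∑ j ∈ Ico a b, c j := by
      unfold base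
      rw [hsum]
      have e1 := mul_le_mul_of_nonneg_left hLab hTL
      have e2 := mul_le_mul_of_nonneg_left hNabR hK
      linarith
    by_cases hcase : b = a + 1 ∧ a ∉ bad
    · obtain ⟨rfl, hgood⟩ := hcase
      obtain ⟨b1, b2, b3⟩ := hB a (by omega)
      have hga := hG a (by omega) hgood
      have hta := ht a (by omega)
      have e0 : ∑ j ∈ Ico a (a + 1), c j = c a := by simp
      rw [e0] at hbase hsumneg
      refine ⟨l₁ ++ ℓ a, sb_append s1 b1, ?_, ?_, ?_⟩
      · rw [List.length_append]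
        have : L * t (a + 1) = L * t a + L * (t (a + 1) - t a) := by
          rw [← mul_add]; congr 1; omega
        omega
      · rw [wt_append]; linarith
      · intro l' hl'
        rcases prefix_cases hl' with h | ⟨l'', rfl, hl''⟩
        · have := s4 l' h; linarith
        · rw [wt_append]
          obtain ⟨r, hr⟩ := hl''
          have e1 : wt w (ℓ a) = wt w l'' + wt w r := by rw [← hr, wt_append]
          have e2 := wt_le w T hT r
          have e3 : (r.length : ℝ) ≤ L * (2 * h) := by
            have e4 : r.length ≤ (ℓ a).length := by rw [← hr, List.length_append]; omega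
            have e5 : (ℓ a).length ≤ L * (2 * h) := b2.trans (Nat.mul_le_mul_left _ (by omega))
            exact_mod_cast e4.trans e5
          have e6 := mul_le_mul_of_nonneg_left e3 hT0
          have e7 : T * (L * (2 * h) : ℝ) = T * L * (2 * h) := by ring
          linarith
    · -- a run
      obtain ⟨n, rfl⟩ : ∃ n, b = a + n := ⟨b - a, by omega⟩
      have hall : ∀ j, a ≤ j → j < a + n → j ∈ aff := by
        intro j hj1 hj2
        by_cases hn : n = 1
        · subst hn
          have : j = a := by omega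
          subst this
          apply haff j (by omega)
          by_contra hcon
          exact hcase ⟨rfl, hcon⟩
        · rcases Nat.lt_or_ge a j with h | h
          · exact haff1 j (by omega) (hmax j h hj2)
          · exact haff2 j (by omega) (hmax (j + 1) (by omega) (by omega))
      obtain ⟨l₂, r1, r2, r3⟩ := run_step hRUN hd hK hA hcl
        (fun j _ h2 => hmono j (j + 1) (by omega) (by omega)) (fun j _ h2 => hB j (by omega))
        hca hcb (NA.filter fun z : V d => (t a : ℤ) < z i ∧ z i ≤ (t (a + n) : ℤ)) (by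
          intro z hz h1 h2
          rw [Finset.mem_filter]
          exact ⟨hNA z hz, h1, h2⟩)
      have hMc : cnt i t NA (a + n) =
          cnt i t NA a + (NA.filter fun z : V d => (t a : ℤ) < z i ∧ z i ≤ (t (a + n) : ℤ)).card := by
        unfold cnt
        rw [← Finset.card_union_of_disjoint]
        · congr 1
          ext z
          simp only [Finset.mem_union, Finset.mem_filter]
          constructor
          · rintro ⟨h1, h2⟩
            rcases le_or_gt (z i) (t a) with h | h
            · exact Or.inl ⟨h1, h⟩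
            · exact Or.inr ⟨h1, h, h2⟩
          · rintro (⟨h1, h2⟩ | ⟨h1, h2, h3⟩)
            · exact ⟨h1, by omega⟩
            · exact ⟨h1, h3⟩
        · rw [Finset.disjoint_left]
          intro z hz hz'
          rw [Finset.mem_filter] at hz hz'
          omega
      have hLc : lamb t aff (a + n) = lamb t aff a + ((t (a + n) : ℝ) - t a) := by
        unfold lamb
        rw [← Finset.sum_range_add_sum_Ico _ (Nat.le_add_right a n), ← tele]
        congr 1
        apply Finset.sum_congr rfl
        intro j hj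
        rw [Finset.mem_Ico] at hj
        rw [if_pos (hall j hj.1 hj.2)]
      have hbase2 : base i T K L t c aff NA (a + n) = base i T K L t c aff NA a +
          ((∑ j ∈ Ico a (a + n), c j) - (T * L + K) * ((t (a + n) : ℝ) - t a) -
            K * (NA.filter fun z : V d => (t a : ℤ) < z i ∧ z i ≤ (t (a + n) : ℤ)).card) := by
        unfold base
        rw [hMc, hLc, hsum]
        push_cast
        ring
      refine ⟨l₁ ++ l₂, sb_append s1 r1, ?_, ?_, ?_⟩
      · rw [List.length_append]
        have : L * t (a + n) = L * t a + L * (t (a + n) - t a) := by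
          rw [← mul_add]; congr 1; omega
        omega
      · rw [wt_append]
        have := r3 l₂ List.prefix_rfl
        linarith
      · intro l' hl'
        have hpos : 0 ≤ T * L * (2 * h) := by positivity
        rcases prefix_cases hl' with h | ⟨l'', rfl, hl''⟩
        · have := s4 l' h; linarith
        · rw [wt_append]
          have := r3 l'' hl''
          linarith


/-! ### counting -/

lemma nm_tri (x y z : V d) : nm (x - z) ≤ nm (x - y) + nm (y - z) := by
  unfold nm
  apply Finset.sup_le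
  intro k _
  have h1 : ((x - y) k).natAbs ≤ univ.sup fun i => ((x - y) i).natAbs :=
    Finset.le_sup (f := fun k => ((x - y) k).natAbs) (Finset.mem_univ k)
  have h2 : ((y - z) k).natAbs ≤ univ.sup fun i => ((y - z) i).natAbs :=
    Finset.le_sup (f := fun k => ((y - z) k).natAbs) (Finset.mem_univ k)
  have h3 : ((x - z) k).natAbs ≤ ((x - y) k).natAbs + ((y - z) k).natAbs := by
    simp only [Pi.sub_apply]; omega
  omega

lemma nm_coord (x : V d) (k : Fin d) : (x k).natAbs ≤ nm x :=
  Finset.le_sup (f := fun k => (x k).natAbs) (Finset.mem_univ k)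

/-- the ball of radius `n` around `x` -/
noncomputable def ball (x : V d) (n : ℕ) : Finset (V d) :=
  Fintype.piFinset fun k => Icc (x k - (n : ℤ)) (x k + n)

lemma ball_card (x : V d) (n : ℕ) : (ball x n).card = (2 * n + 1) ^ d := by
  unfold ball
  rw [Fintype.card_piFinset]
  have : ∀ k : Fin d, (Icc (x k - (n : ℤ)) (x k + n)).card = 2 * n + 1 := by
    intro k
    rw [Int.card_Icc]; omega
  simp [this]

lemma mem_ball {x y : V d} {n : ℕ} (h : nm (y - x) ≤ n) : y ∈ ball x n := by
  unfold ball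
  rw [Fintype.mem_piFinset]
  intro k
  have := nm_coord (y - x) k
  simp only [Pi.sub_apply] at this
  rw [Finset.mem_Icc]
  omega

/-- the closed clusters of the bad blocks -/
def AA (i : Fin d) (K : ℝ) (w : V d → ℝ) (t : ℕ → ℕ) (bad : Finset ℕ) (J : ℕ) : Set (V d) :=
  {z | ∃ j < J, j ∈ bad ∧ ∃ m : ℕ, t j < m ∧ m ≤ t (j + 1) ∧ pt i m ∈ Cl K w ∧
    z ∈ Hull (Cl K w) {pt i m}}

lemma aa_closed {i : Fin d} {K : ℝ} {w : V d → ℝ} {t : ℕ → ℕ} {bad : Finset ℕ} {J : ℕ} :
    ∀ z ∈ AA i K w t bad J, ∀ z', z' ∈ Cl K w → nm (z' - z) ≤ 2 → z' ∈ AA i K w t bad J := by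
  rintro z ⟨j, hj, hb, m, h1, h2, h3, x, hx, h4⟩ z' hz' hn
  exact ⟨j, hj, hb, m, h1, h2, h3, x, hx, h4.tail ⟨hz', hn⟩⟩

/-- a finite set containing the neighbourhood of `AA` -/
noncomputable def NAf (i : Fin d) (t : ℕ → ℕ) (bad : Finset ℕ) (J : ℕ) (ρ : ℕ → ℕ) :
    Finset (V d) := by
  classical
  exact (bad.filter (· < J)).biUnion fun j => (Ioc (t j) (t (j + 1))).biUnion fun m =>
    ball (pt i m) (ρ m + 2)

lemma naf_card {i : Fin d} {t : ℕ → ℕ} {bad : Finset ℕ} {J : ℕ} {ρ : ℕ → ℕ} :
    (NAf i t bad J ρ).card ≤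
      ∑ j ∈ bad.filter (· < J), ∑ m ∈ Ioc (t j) (t (j + 1)), (2 * ρ m + 7) ^ d := by
  classical
  unfold NAf
  refine Finset.card_biUnion_le.trans (Finset.sum_le_sum fun j _ => ?_)
  refine Finset.card_biUnion_le.trans (Finset.sum_le_sum fun m _ => ?_)
  rw [ball_card]
  exact Nat.pow_le_pow_left (by omega) d

lemma mem_naf {i : Fin d} {K : ℝ} {w : V d → ℝ} {t : ℕ → ℕ} {bad : Finset ℕ} {J : ℕ} {ρ : ℕ → ℕ}
    (hρ : ∀ j < J, j ∈ bad → ∀ m : ℕ, t j < m → m ≤ t (j + 1) → pt i m ∈ Cl K w →
      ∀ y ∈ Hull (Cl K w) {pt i m}, nm (y - pt i m) ≤ ρ m) :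
    ∀ z ∈ Nb (AA i K w t bad J) 2, z ∈ NAf i t bad J ρ := by
  classical
  rintro z ⟨y, ⟨j, hj, hb, m, h1, h2, h3, h4⟩, hy⟩
  unfold NAf
  rw [Finset.mem_biUnion]
  refine ⟨j, by simp [hb, hj], ?_⟩
  rw [Finset.mem_biUnion]
  refine ⟨m, by rw [Finset.mem_Ioc]; exact ⟨h1, h2⟩, mem_ball ?_⟩
  have := hρ j hj hb m h1 h2 h3 y h4
  have := nm_tri z y (pt i m)
  omega

/-- the sum of the lengths of a set of blocks inside an interval -/
lemma sum_blocks {t : ℕ → ℕ} {J : ℕ} (hmono : ∀ j k, j ≤ k → k ≤ J → t j ≤ t k) (S : Finset ℕ)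
    (hS : ∀ k ∈ S, k < J) (X Y : ℕ) (hX : ∀ k ∈ S, X ≤ t k) (hY : ∀ k ∈ S, t (k + 1) ≤ Y) :
    ∑ k ∈ S, (t (k + 1) - t k) ≤ Y - X := by
  classical
  have h1 : (S.biUnion fun k => Ioc (t k) (t (k + 1))).card = ∑ k ∈ S, (t (k + 1) - t k) := by
    rw [Finset.card_biUnion]
    · simp
    · intro a ha b hb hab
      rw [Function.onFun, Finset.disjoint_left]
      intro x hx hx'
      rw [Finset.mem_Ioc] at hx hx'
      rcases Nat.lt_or_gt_of_ne hab with h | h
      · have := hmono (a + 1) b (by omega) (hS b hb).le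
        omega
      · have := hmono (b + 1) a (by omega) (hS a ha).le
        omega
  rw [← h1, ← Nat.card_Ioc]
  apply Finset.card_le_card
  intro x hx
  rw [Finset.mem_biUnion] at hx
  obtain ⟨k, hk, hx⟩ := hx
  rw [Finset.mem_Ioc] at hx ⊢
  have := hX k hk
  have := hY k hk
  omega

lemma sum_biUnion_le' (s : Finset ℕ) (f : ℕ → Finset ℕ) (g : ℕ → ℕ) :
    ∑ k ∈ s.biUnion f, g k ≤ ∑ j ∈ s, ∑ k ∈ f j, g k := by
  induction s using Finset.induction_on with
  | empty => simp
  | insert a s ha ih =>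
    rw [Finset.biUnion_insert, Finset.sum_insert ha]
    have := Finset.sum_union_inter (s₁ := f a) (s₂ := s.biUnion f) (f := g)
    omega

theorem S_CH_proof (hRUN : S_RUN) : S_CH := by
  classical
  intro d i hd w T K B L h J t bad c ρ hT0 hK hB hh hL hJ hT h0 ht hc hgood hbad Q hQ
  have hmono : ∀ j k, j ≤ k → k ≤ J → t j ≤ t k := by
    intro j k hjk
    induction k, hjk using Nat.le_induction with
    | base => intro _; exact le_rfl
    | succ k hk ih =>
      intro hkJ
      have := (ht k (by omega)).1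
      have := ih (by omega)
      omega
  set A := AA i K w t bad J with hAdef
  have hρ : ∀ j < J, j ∈ bad → ∀ m : ℕ, t j < m → m ≤ t (j + 1) → pt i m ∈ Cl K w →
      ∀ y ∈ Hull (Cl K w) {pt i m}, nm (y - pt i m) ≤ ρ m :=
    fun j hj hb m h1 h2 h3 y hy => (hbad j hj hb m h1 h2 h3 y hy).1
  have hNA : ∀ z ∈ Nb A 2, z ∈ NAf i t bad J ρ := mem_naf hρ
  have hA : A.Finite := by
    apply Set.Finite.subset (NAf i t bad J ρ).finite_toSet
    intro z hz
    apply hNA
    exact ⟨z, hz, by simp [nm]⟩
  -- the blocks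
  have hex : ∀ j : ℕ, ∃ l : List (V d), j < J →
      (Blk i w A L (T * L + K) t c (fun _ => l) j ∧ (j ∉ bad → c j ≤ wt w l)) := by
    intro j
    by_cases hj : j < J
    · have htj := ht j hj
      have hR : ((t (j + 1) - t j : ℕ) : ℝ) = (t (j + 1) : ℝ) - t j := by
        rw [Nat.cast_sub (by omega)]
      have hR0 : 0 ≤ (t (j + 1) : ℝ) - t j := by rw [← hR]; positivity
      by_cases hb : j ∈ bad
      · refine ⟨line i (t j) (t (j + 1) - t j), fun _ => ⟨⟨?_, ?_, ?_⟩, fun h => absurd hb h⟩⟩
        · have := line_sb i (t j) (t (j + 1) - t j)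
          have e : t j + (t (j + 1) - t j) = t (j + 1) := by omega
          rwa [e] at this
        · rw [line_len]
          exact Nat.le_mul_of_pos_left _ (by omega)
        · have h1 : PP w A (line i (t j) (t (j + 1) - t j)) (K * (line (d := d) i (t j)
              (t (j + 1) - t j)).length) := by
            apply pp_line hK
            intro z hz hzA
            obtain ⟨m, hm1, hm2, rfl⟩ := line_mem i _ _ hz
            by_contra hcon
            push Not at hcon
            apply hzA
            exact ⟨j, hj, hb, m, hm1, by omega, hcon, pt i m, rfl, Relation.ReflTransGen.refl⟩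
          refine pp_mono h1 ?_
          rw [line_len, hR]
          have := hc j
          have : 0 ≤ T * L * ((t (j + 1) : ℝ) - t j) := by positivity
          nlinarith
      · obtain ⟨_, l, l1, l2, l3⟩ := hgood j hj hb
        refine ⟨l, fun _ => ⟨⟨l1, l2, ?_⟩, fun _ => l3⟩⟩
        have hnd : l.Nodup := (List.nodup_cons.mp l1.1.2).2
        refine pp_mono (pp_good hT0 hT A hnd l3) ?_
        have e1 : (l.length : ℝ) ≤ L * ((t (j + 1) : ℝ) - t j) := by
          rw [← hR]; exact_mod_cast l2
        have e2 := mul_le_mul_of_nonneg_left e1 hT0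
        have e3 : 0 ≤ K * ((t (j + 1) : ℝ) - t j) := by positivity
        nlinarith
    · exact ⟨[], fun h => absurd h hj⟩
  choose ℓ hℓ using hex
  -- affected blocks
  set aff : Finset ℕ := (range J).filter (fun k => k ∈ bad ∨
    ∃ z ∈ A, (t k : ℤ) ≤ z i + 2 ∧ z i ≤ t (k + 1) + 2) with haffdef
  have hmaxr : ∀ j < J, ∀ m, t j < m → m ≤ t (j + 1) →
      2 * ρ m ≤ ∑ m ∈ Ioc (t j) (t (j + 1)), (2 * ρ m + 7) ^ d := by
    intro j hj m h1 h2
    have e1 : (2 * ρ m + 7) ^ d ≤ ∑ m ∈ Ioc (t j) (t (j + 1)), (2 * ρ m + 7) ^ d :=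
      Finset.single_le_sum (f := fun m => (2 * ρ m + 7) ^ d) (fun _ _ => Nat.zero_le _)
        (by rw [Finset.mem_Ioc]; exact ⟨h1, h2⟩)
    have e2 : 2 * ρ m + 7 ≤ (2 * ρ m + 7) ^ d := Nat.le_self_pow (by omega) _
    omega
  obtain ⟨l, l1, l2, _, l4⟩ := chain_ind (A := A) (L := L) (h := h) (J := J) (T := T) (K := K)
    (t := t) (c := c) (ℓ := ℓ) (bad := bad) (aff := aff) (NA := NAf i t bad J ρ)
    hRUN hd hT0 hK hT hA aa_closed h0 ht hc (fun j hj => (hℓ j hj).1) (fun j hj => (hℓ j hj).2)
    (by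
      intro j hj hb
      rw [haffdef, Finset.mem_filter, Finset.mem_range]
      exact ⟨hj, Or.inl hb⟩)
    (by
      intro j hj hcl
      rw [haffdef, Finset.mem_filter, Finset.mem_range]
      refine ⟨hj, Or.inr ?_⟩
      unfold Clean at hcl
      push Not at hcl
      obtain ⟨z, hz, h1, h2⟩ := hcl
      have := (ht j hj).1
      exact ⟨z, hz, by omega, by omega⟩)
    (by
      intro j hj hcl
      rw [haffdef, Finset.mem_filter, Finset.mem_range]
      refine ⟨hj, Or.inr ?_⟩
      unfold Clean at hcl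
      push Not at hcl
      obtain ⟨z, hz, h1, h2⟩ := hcl
      have := (ht j hj).1
      exact ⟨z, hz, by omega, by omega⟩)
    hNA
    (by
      rintro z ⟨j, hj, hb, m, h1, h2, h3, h4⟩
      have := (hbad j hj hb m h1 h2 h3 z h4).2.1
      right; rw [h0]; push_cast; omega)
    J le_rfl
    (by
      rintro z ⟨j, hj, hb, m, h1, h2, h3, h4⟩
      have := (hbad j hj hb m h1 h2 h3 z h4).2.2
      left; omega)
  -- the bounds for the two counts
  have hcntQ : cnt i t (NAf i t bad J ρ) J ≤ Q := by
    refine (Finset.card_filter_le _ _).trans (naf_card.trans ?_)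
    rw [hQ]
    exact Finset.sum_le_sum fun j _ => Nat.le_add_left _ _
  have hlamQ : lamb t aff J ≤ Q := by
    have e1 : lamb t aff J = ((∑ k ∈ aff, (t (k + 1) - t k) : ℕ) : ℝ) := by
      unfold lamb
      rw [← Finset.sum_filter]
      have : (range J).filter (fun k => k ∈ aff) = aff := by
        ext k
        rw [Finset.mem_filter]
        constructor
        · exact fun h => h.2
        · intro h
          refine ⟨?_, h⟩
          rw [haffdef, Finset.mem_filter] at h
          exact h.1
      rw [this, Nat.cast_sum]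
      apply Finset.sum_congr rfl
      intro k hk
      rw [haffdef, Finset.mem_filter, Finset.mem_range] at hk
      rw [Nat.cast_sub (by have := (ht k hk.1).1; omega)]
    rw [e1]
    have e2 : ∑ k ∈ aff, (t (k + 1) - t k) ≤ Q := by
      -- blocks affected by the bad block `j`
      set af : ℕ → Finset ℕ := fun j => (range J).filter (fun k => k = j ∨
        ∃ m : ℕ, t j < m ∧ m ≤ t (j + 1) ∧ ∃ z : V d, nm (z - pt i m) ≤ ρ m ∧
          (t k : ℤ) ≤ z i + 2 ∧ z i ≤ t (k + 1) + 2) with hafdef
      have hsub : aff ⊆ (bad.filter (· < J)).biUnion af := by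
        intro k hk
        rw [haffdef, Finset.mem_filter, Finset.mem_range] at hk
        rw [Finset.mem_biUnion]
        obtain ⟨hkJ, hk⟩ := hk
        rcases hk with hk | ⟨z, ⟨j, hj, hb, m, h1, h2, h3, h4⟩, hz1, hz2⟩
        · exact ⟨k, by simp [hk, hkJ], by simp [hafdef, hkJ]⟩
        · refine ⟨j, by simp [hb, hj], ?_⟩
          rw [hafdef, Finset.mem_filter, Finset.mem_range]
          exact ⟨hkJ, Or.inr ⟨m, h1, h2, z, hρ j hj hb m h1 h2 h3 z h4, hz1, hz2⟩⟩
      calc ∑ k ∈ aff, (t (k + 1) - t k)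
          ≤ ∑ k ∈ (bad.filter (· < J)).biUnion af, (t (k + 1) - t k) :=
            Finset.sum_le_sum_of_subset hsub
        _ ≤ ∑ j ∈ bad.filter (· < J), ∑ k ∈ af j, (t (k + 1) - t k) :=
            sum_biUnion_le' _ _ _
        _ ≤ ∑ j ∈ bad.filter (· < J), (8 * h + ∑ m ∈ Ioc (t j) (t (j + 1)), (2 * ρ m + 7) ^ d) := by
            apply Finset.sum_le_sum
            intro j hj
            rw [Finset.mem_filter] at hj
            have htj := ht j hj.2
            set X := ∑ m ∈ Ioc (t j) (t (j + 1)), (2 * ρ m + 7) ^ d with hX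
            have hbnd := sum_blocks hmono (af j)
              (by
                intro k hk
                rw [hafdef, Finset.mem_filter, Finset.mem_range] at hk
                exact hk.1)
              (t j - (X / 2 + 1 + 2 * h)) (t (j + 1) + X / 2 + 2 + 2 * h)
              (by
                intro k hk
                rw [hafdef, Finset.mem_filter, Finset.mem_range] at hk
                obtain ⟨hkJ, hk⟩ := hk
                rcases hk with rfl | ⟨m, h1, h2, z, h3, h4, h5⟩
                · omega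
                · have e3 := hmaxr j hj.2 m h1 h2
                  have e4 := nm_coord (z - pt i m) i
                  simp only [Pi.sub_apply, pt_self] at e4
                  have e5 := ht k hkJ
                  rw [← hX] at e3
                  omega)
              (by
                intro k hk
                rw [hafdef, Finset.mem_filter, Finset.mem_range] at hk
                obtain ⟨hkJ, hk⟩ := hk
                rcases hk with rfl | ⟨m, h1, h2, z, h3, h4, h5⟩
                · omega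
                · have e3 := hmaxr j hj.2 m h1 h2
                  have e4 := nm_coord (z - pt i m) i
                  simp only [Pi.sub_apply, pt_self] at e4
                  have e5 := ht k hkJ
                  rw [← hX] at e3
                  omega)
            omega
        _ = Q := hQ.symm
    exact_mod_cast e2
  refine ⟨l, l1, l2.trans (Nat.add_le_add_left hcntQ _), ?_⟩
  intro l' hl'
  have h1 := l4 l' hl'
  unfold base at h1
  have hcntR : (cnt i t (NAf i t bad J ρ) J : ℝ) ≤ Q := by exact_mod_cast hcntQ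
  have hTL : 0 ≤ T * L := by positivity
  have e1 := mul_le_mul_of_nonneg_left hlamQ (by linarith : 0 ≤ T * L + K)
  have e2 := mul_le_mul_of_nonneg_left hcntR hK
  have e3 : 0 ≤ (B + 2) * (8 * h + Q : ℝ) := by positivity
  have e4 : 0 ≤ K * (8 * h : ℝ) := by positivity
  have e5 : 0 ≤ T * L * (6 * h : ℝ) := by positivity
  have e6 : (B + T * L + 2 * K + 2) * (8 * h + Q : ℝ) = (B + 2) * (8 * h + Q) +
    ((T * L + K) * Q + K * Q) + T * L * (2 * h) + T * L * (6 * h) + 2 * (K * (8 * h)) := by ring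
  rw [e6]
  linarith

end Pool.Agent.W789.GP
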